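import Pool.Agent.R501.MT8

/-!
# The digits in base `q` of multiples of `p ^ n` by palindromes and by integers with missing digits

Let `p, q ≥ 2` be coprime, for instance different primes. Let `m` be a random palindrome with `k` digits in base `p`, or
a random integer with `k` digits in base `p` whose `i`-th digit belongs to a given set `D i` of at least two digits; with
`D i = {0, 1}` the integer `m p ^ N` is the sum of a random set of powers `p ^ n`, `N ≤ n < N + k`. For almost all of
these integers all words have the right frequencies in all windows of the base `q` digits of `m p ^ N + y` below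
`p ^ N`, for every `N ≤ A k`. So for the multipliers with about `ε n` digits all digits have the frequency `1 / q` in the
whole base `q` expansion of `m p ^ n`, up to an error `2 ε`.

From the starting files: the Diophantine input `Pool.Agent.Y933.KE.powers_far` (which rests on the subspace theorem),
the comparison of measures `Pool.Agent.Y933.KD.Test`, the moments of word counts, and `Pool.Agent.Y933.KE.PowRes`; the
characteristic functions of the families are in `Pool.Agent.TH872`, `Pool.Agent.R459.Eq6` and `Pool.Agent.R318.ST.Dig`.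
New is the combination: `Pool.Agent.R501.MT6` to `MT8`.
-/

set_option autoImplicit false

namespace Pool.Agent.Results.MP_b08cb4_nt.PalindromesAndMissingDigits

open Finset

/-- all words of at most `w` digits in base `q` stand with the right frequency, up to an error of `T` places, in all the
windows of the places of `X` below that of `Y`: if `q ^ (i₀ + L + l) ≤ Y`, the number of the `i < L` such that the
digits of `X` at the places `i₀ + i, …, i₀ + i + l - 1` form the word `j` differs from `L / q ^ l` by at most `T` (the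
place `i` is that of `q ^ i`) -/
def NearNormal (q w : ℕ) (T : ℝ) (Y X : ℕ) : Prop :=
  ∀ l j i₀ L : ℕ, 1 ≤ l → l ≤ w → j < q ^ l → q ^ (i₀ + L + l) ≤ Y →
    |(((range L).filter (fun i => X / q ^ (i₀ + i) % q ^ l = j)).card : ℝ) - L / (q : ℝ) ^ l| ≤ T

/-- in base `q`, every digit `b` stands at the proportion `1 / q` of the places of `X`, up to an error `T`, when the
number of places is taken as `R` -/
def NearUniform (q : ℕ) (T R : ℝ) (X : ℕ) : Prop :=
  ∀ b < q, |((Nat.digits q X).count b : ℝ) / R - 1 / q| ≤ T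

/-- the palindromes with exactly `k` digits in base `p` -/
def IsPalindrome (p k m : ℕ) : Prop :=
  p ^ (k - 1) ≤ m ∧ m < p ^ k ∧ ∀ j < k, m / p ^ j % p = m / p ^ (k - 1 - j) % p

open Classical in
/-- the set of the palindromes with exactly `k` digits in base `p` -/
noncomputable def palindromes (p k : ℕ) : Finset ℕ := (range (p ^ k)).filter (IsPalindrome p k)

/-- the integer with the digits `a 0, …, a (k - 1)` in base `p` (the units first) -/
def value (p : ℕ) {k : ℕ} (a : Fin k → ℕ) : ℕ := ∑ i : Fin k, a i * p ^ (i : ℕ)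

lemma value_lt {p : ℕ} (hp : 1 ≤ p) : ∀ (k : ℕ) (a : Fin k → ℕ), (∀ i, a i < p) → value p a < p ^ k := by
  unfold value
  intro k
  induction k with
  | zero => intro a _; simp
  | succ k ih =>
    intro a ha
    rw [Fin.sum_univ_castSucc]
    have h1 := ih (fun i => a i.castSucc) (fun i => ha _)
    have h2 := ha (Fin.last k)
    simp only [Fin.val_castSucc, Fin.val_last] at h1 ⊢
    calc ∑ i : Fin k, a i.castSucc * p ^ (i : ℕ) + a (Fin.last k) * p ^ k < p ^ k + a (Fin.last k) * p ^ k :=
          Nat.add_lt_add_right h1 _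
      _ = (a (Fin.last k) + 1) * p ^ k := by ring
      _ ≤ p * p ^ k := Nat.mul_le_mul_right _ h2
      _ = p ^ (k + 1) := by ring

lemma filt_card {S : Finset ℕ} {P Q : ℕ → Prop} (i₁ : DecidablePred P) (i₂ : DecidablePred Q) (h : ∀ m ∈ S, P m → Q m) :
    (@filter _ P i₁ S).card ≤ (@filter _ Q i₂ S).card := by
  apply card_le_card
  intro m hm
  rw [mem_filter] at hm ⊢
  exact ⟨hm.1, h m hm.1 hm.2⟩

open Pool.Agent.R501.MT in
lemma near_of_good {q w N : ℕ} {p : ℕ} {T T' : ℝ} (hq : 2 ≤ q) (hT : T ≤ T') {X : ℕ} (h : GoodN q w T (Nat.log q (p ^ N)) X) :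
    NearNormal q w T' (p ^ N) X := by
  intro l j i₀ L hl hlw hj hL
  have : i₀ + L + l ≤ Nat.log q (p ^ N) := Nat.le_log_of_pow_le (by omega) hL
  exact (h l j i₀ L hl hlw hj (by omega)).trans hT

open Classical in
/-- Let `p, q ≥ 2` be coprime.

(1) For all `w`, `A` and `ε > 0`, for all large `k`, for all `N ≤ A k` and all `y`, the number `m * p ^ N + y` has all
its words of at most `w` digits in base `q` with the right frequencies, up to an error `ε k`, in all the windows of
places below `p ^ N`,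
(a) for all the palindromes `m` with `k` digits in base `p` but a proportion of at most `ε`;
(b) for all the integers `m = ∑ a i p ^ i`, `i < k`, with `a i ∈ D i` for all `i` but a proportion of at most `ε`,
for all sets `D 0, …, D (k - 1)` of at least two digits.

(2) For all `ε > 0`, for all large `n` and all `k` with `ε n / 2 ≤ k ≤ ε n`, for every digit `b < q` the number of
digits `b` in the base `q` expansion of `m * p ^ n`, divided by `n log_q p`, differs from `1 / q` by at most `2 ε`,
(a) for all the palindromes `m` with `k` digits in base `p` but a proportion of at most `ε`;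
(b) for all the integers `m = ∑ a i p ^ i ≠ 0`, `i < k`, with `a i ∈ D i` for all `i` but a proportion of at most `ε`,
for all sets `D 0, …, D (k - 1)` of at least two digits. -/
theorem result (p q : ℕ) (hp : 2 ≤ p) (hq : 2 ≤ q) (hpq : p.Coprime q) :
    (∀ (w : ℕ) (A ε : ℝ), 0 < ε → ∃ k₀ : ℕ, ∀ k : ℕ, k₀ ≤ k → ∀ N y : ℕ, (N : ℝ) ≤ A * k →
      (((palindromes p k).filter fun m : ℕ =>
        ¬ NearNormal q w (ε * k) (p ^ N) (m * p ^ N + y)).card : ℝ) ≤ ε * (palindromes p k).card ∧
      ∀ D : Fin k → Finset ℕ, (∀ i, D i ⊆ range p ∧ 2 ≤ (D i).card) →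
        (((Fintype.piFinset D).filter fun a : Fin k → ℕ =>
          ¬ NearNormal q w (ε * k) (p ^ N) (value p a * p ^ N + y)).card : ℝ) ≤ ε * (Fintype.piFinset D).card) ∧
    (∀ ε : ℝ, 0 < ε → ∃ n₀ : ℕ, ∀ n : ℕ, n₀ ≤ n → ∀ k : ℕ, ε * n / 2 ≤ k → (k : ℝ) ≤ ε * n →
      (((palindromes p k).filter fun m : ℕ =>
        ¬ NearUniform q (2 * ε) (n * Real.logb q p) (m * p ^ n)).card : ℝ) ≤ ε * (palindromes p k).card ∧
      ∀ D : Fin k → Finset ℕ, (∀ i, D i ⊆ range p ∧ 2 ≤ (D i).card) →
        (((Fintype.piFinset D).filter fun a : Fin k → ℕ => value p a ≠ 0 ∧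
          ¬ NearUniform q (2 * ε) (n * Real.logb q p) (value p a * p ^ n)).card : ℝ) ≤
          ε * (Fintype.piFinset D).card) := by
  have hqR : (2 : ℝ) ≤ q := by exact_mod_cast hq
  have hq0 : (0 : ℝ) < q := by linarith
  have hpR : (2 : ℝ) ≤ p := by exact_mod_cast hp
  have hp0 : (0 : ℝ) < p := by linarith
  have hlq : 0 < Real.log (q : ℝ) := Real.log_pos (by linarith)
  have hlp : 0 < Real.log (p : ℝ) := Real.log_pos (by linarith)
  -- the common statement
  have main : ∀ (w : ℕ) (A ε : ℝ), 0 < ε → ∃ k₀ : ℕ, ∀ k : ℕ, k₀ ≤ k → ∀ N y : ℕ, (N : ℝ) ≤ A * k →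
      (((palindromes p k).filter fun m : ℕ =>
        ¬ Pool.Agent.R501.MT.GoodN q w (ε * k) (Nat.log q (p ^ N)) (m * p ^ N + y)).card : ℝ) ≤
          ε * (palindromes p k).card ∧
      ∀ D : Fin k → Finset ℕ, (∀ i, D i ⊆ range p ∧ 2 ≤ (D i).card) →
        (((Fintype.piFinset D).filter fun a : Fin k → ℕ =>
          ¬ Pool.Agent.R501.MT.GoodN q w (ε * k) (Nat.log q (p ^ N)) (value p a * p ^ N + y)).card : ℝ) ≤
            ε * (Fintype.piFinset D).card := by
    intro w A ε hε
    obtain ⟨c₁, k₁, h₁⟩ := Pool.Agent.R501.MT.almost_pow hp hq hpq w (|A| + 1) (ε / 2) 1 (by positivity) (by positivity) one_pos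
    obtain ⟨c₂, k₂, h₂⟩ := Pool.Agent.R501.MT.restricted_pow hp hq hpq w (|A| + 1) (ε / 2) (by positivity) (by positivity)
    obtain ⟨k₃, hk₃⟩ := exists_nat_ge (4 * ((c₁ + c₂ : ℕ) : ℝ) / ε)
    refine ⟨k₁ + k₂ + k₃, fun k hk N y hN => ?_⟩
    have hc : 4 * ((c₁ + c₂ : ℕ) : ℝ) ≤ ε * k := by
      have h1 : 4 * ((c₁ + c₂ : ℕ) : ℝ) / ε ≤ k := hk₃.trans (by exact_mod_cast (by omega : k₃ ≤ k))
      rw [div_le_iff₀ hε] at h1
      linarith
    push_cast at hc
    have hc1 : (0 : ℝ) ≤ c₁ := Nat.cast_nonneg _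
    have hc2 : (0 : ℝ) ≤ c₂ := Nat.cast_nonneg _
    have hN' : (N : ℝ) ≤ (|A| + 1) * k := hN.trans (by
      apply mul_le_mul_of_nonneg_right _ (Nat.cast_nonneg _)
      linarith [le_abs_self A])
    have hJ1 : q ^ (Nat.log q (p ^ N)) ≤ p ^ N := Nat.pow_log_le_self q (by positivity)
    refine ⟨?_, fun D hD => ?_⟩
    · have h3 := (h₁ k (by omega) N _ ((y : ℝ) / (q : ℝ) ^ (Nat.log q (p ^ N))) hN' hJ1).2.1
      have e1 : ∀ E : ℕ → Prop, Pool.Agent.TH872.Tr.num p k E = ((palindromes p k).filter E).card := by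
        intro E
        unfold Pool.Agent.TH872.Tr.num palindromes
        rw [filter_filter]
        rfl
      rw [e1, e1, filter_true] at h3
      have h4 : ε / 2 * ((palindromes p k).card : ℝ) ≤ ε * (palindromes p k).card :=
        mul_le_mul_of_nonneg_right (by linarith) (Nat.cast_nonneg _)
      refine le_trans ?_ (h3.trans h4)
      rw [Nat.cast_le]
      refine filt_card _ _ fun m _ hm hcon => hm ?_
      have e2 : ((0 + 1 * ((m : ℕ) : ℤ) : ℤ) : ℝ) = (m : ℝ) := by
        push_cast
        ring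
      beta_reduce at hcon
      rw [e2] at hcon
      have h5 := Pool.Agent.R501.MT.goodN_mul hq (by positivity) _ _ hcon
      intro l j i₀ L hl hlw hj hL
      refine (h5 l j i₀ L hl hlw hj hL).trans ?_
      linarith
    · have h4 : ε / 2 * ((Fintype.piFinset D).card : ℝ) ≤ ε * (Fintype.piFinset D).card :=
        mul_le_mul_of_nonneg_right (by linarith) (Nat.cast_nonneg _)
      refine (h₂ k (by omega) D hD N _ ((y : ℝ) / (q : ℝ) ^ (Nat.log q (p ^ N))) hN' hJ1 _ (filter_subset _ _)
        fun a ha hcon => ?_).trans h4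
      refine (mem_filter.1 ha).2 ?_
      have h5 := Pool.Agent.R501.MT.goodN_mul hq (by positivity) _ _ hcon
      intro l j i₀ L hl hlw hj hL
      refine (h5 l j i₀ L hl hlw hj hL).trans ?_
      linarith
  refine ⟨fun w A ε hε => ?_, fun ε hε => ?_⟩
  · obtain ⟨k₀, h⟩ := main w A ε hε
    refine ⟨k₀, fun k hk N y hN => ⟨?_, fun D hD => ?_⟩⟩
    · refine le_trans ?_ (h k hk N y hN).1
      rw [Nat.cast_le]
      exact filt_card _ _ fun m _ hm hcon => hm (near_of_good hq le_rfl hcon)
    · refine le_trans ?_ ((h k hk N y hN).2 D hD)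
      rw [Nat.cast_le]
      apply card_le_card
      intro a ha
      rw [mem_filter] at ha ⊢
      exact ⟨ha.1, fun hcon => ha.2 (near_of_good hq le_rfl hcon)⟩
  · obtain ⟨ε', hε'⟩ : ∃ ε', ε' = min ε (Real.log p / (4 * Real.log q)) := ⟨_, rfl⟩
    have hε'0 : 0 < ε' := by rw [hε']; exact lt_min hε (by positivity)
    have hε'1 : ε' ≤ ε := by rw [hε']; exact min_le_left _ _
    have hε'2 : ε' ≤ Real.log p / (4 * Real.log q) := by rw [hε']; exact min_le_right _ _
    obtain ⟨k₀, h⟩ := main 1 (2 / ε) ε' hε'0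
    obtain ⟨n₁, hn₁⟩ := Pool.Agent.Y933.KE.freq_of_low hp hq hε
    obtain ⟨n₂, hn₂⟩ := exists_nat_ge (2 * ((k₀ : ℝ) + 1) / ε)
    refine ⟨n₁ + n₂, fun n hn k hk1 hk2 => ?_⟩
    have hn2 : 2 * ((k₀ : ℝ) + 1) / ε ≤ n := hn₂.trans (by exact_mod_cast (by omega : n₂ ≤ n))
    rw [div_le_iff₀ hε] at hn2
    have hkk : (k₀ : ℝ) + 1 ≤ k := by linarith
    have hkk' : k₀ + 1 ≤ k := by exact_mod_cast hkk
    have hk0 : (0 : ℝ) < k := by exact_mod_cast (by omega : 0 < k)
    have hN : (n : ℝ) ≤ 2 / ε * k := by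
      rw [div_mul_eq_mul_div, le_div_iff₀ hε]
      linarith
    have key : ∀ m : ℕ, 1 ≤ m → m < p ^ k →
        Pool.Agent.R501.MT.GoodN q 1 (ε' * k) (Nat.log q (p ^ n)) (m * p ^ n + 0) →
        NearUniform q (2 * ε) (n * Real.logb q p) (m * p ^ n) := by
      intro m hm1 hmk hcon b hb
      have hm2 : (m : ℝ) ≤ (p : ℝ) ^ (ε * n) := by
        have h4 : (m : ℝ) ≤ (p : ℝ) ^ k := by exact_mod_cast hmk.le
        refine h4.trans ?_
        rw [← Real.rpow_natCast]
        exact Real.rpow_le_rpow_of_exponent_le (by linarith) hk2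
      refine hn₁ n (by omega) _ b hm1 hm2 ?_
      have h5 := hcon 1 b 0 (Nat.log q (p ^ n)) le_rfl le_rfl (by simpa using hb) (by omega)
      simp only [zero_add, add_zero, pow_one] at h5
      refine h5.trans ?_
      calc ε' * k ≤ Real.log p / (4 * Real.log q) * (ε * n) := mul_le_mul hε'2 hk2 hk0.le (by positivity)
        _ = 1 / (4 * Real.log q) * (ε * n * Real.log p) := by ring
    refine ⟨?_, fun D hD => ?_⟩
    · have h2 : ε' * ((palindromes p k).card : ℝ) ≤ ε * (palindromes p k).card :=
        mul_le_mul_of_nonneg_right hε'1 (Nat.cast_nonneg _)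
      refine le_trans ?_ ((h k (by omega) n 0 hN).1.trans h2)
      rw [Nat.cast_le]
      refine filt_card _ _ fun m hm hbad hcon => hbad ?_
      unfold palindromes at hm
      rw [mem_filter] at hm
      refine key m ?_ hm.2.2.1 hcon
      exact le_trans (Nat.one_le_pow _ _ (by omega)) hm.2.1
    · have h2 : ε' * ((Fintype.piFinset D).card : ℝ) ≤ ε * (Fintype.piFinset D).card :=
        mul_le_mul_of_nonneg_right hε'1 (Nat.cast_nonneg _)
      refine le_trans ?_ (((h k (by omega) n 0 hN).2 D hD).trans h2)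
      rw [Nat.cast_le]
      apply card_le_card
      intro a ha
      rw [mem_filter] at ha ⊢
      refine ⟨ha.1, fun hcon => ha.2.2 (key _ (Nat.one_le_iff_ne_zero.2 ha.2.1) ?_ hcon)⟩
      have h6 := Fintype.mem_piFinset.1 ha.1
      exact value_lt (by omega) k a fun i => mem_range.1 ((hD i).1 (h6 i))

end Pool.Agent.Results.MP_b08cb4_nt.PalindromesAndMissingDigits
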