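import Mathlib
import Pool.Agent.R473.PP.Fail
import Pool.Agent.TH461.AL.Fin

/-!
# Prediction and compression of the digits of powers

For `b, q ≥ 2` coprime and `a ≥ 1`: for all but `δ T` of any `T` consecutive exponents `n`, in every
long window of the base `b` digits of `a q ^ n`, read upwards or downwards, a deterministic pushdown
automaton which predicts the next digit is wrong at least `T ^ (1 - ε)` times, and a lossless
automaton with `K` states writes something in at least `T ^ (1 - ε)` steps.

The automata are in `Pool.Agent.R473.PP`; the digits are controlled by the starting theorem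
`Pool.Agent.TH461.AL.Fin.pow_windows` (words in all long windows, `WordsInAllWindows`).
-/

set_option autoImplicit false

namespace Pool.Agent.Results.MP_b08cb4_nt.PredictorsAndCompressors

open Finset Filter Pool.Agent.R473.PP

lemma filt_add (T : ℕ) (p p1 p2 : ℕ → Prop) [DecidablePred p] [DecidablePred p1]
    [DecidablePred p2] (h : ∀ t, ¬ p1 t → ¬ p2 t → ¬ p t) {x y : ℝ}
    (h1 : (((range T).filter p1).card : ℝ) ≤ x) (h2 : (((range T).filter p2).card : ℝ) ≤ y) :
    (((range T).filter p).card : ℝ) ≤ x + y := by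
  refine le_trans ?_ (add_le_add h1 h2)
  rw [← Nat.cast_add]
  refine Nat.cast_le.2 (le_trans (Finset.card_le_card ?_) (Finset.card_union_le _ _))
  intro t ht
  rw [Finset.mem_filter] at ht
  rw [Finset.mem_union, Finset.mem_filter, Finset.mem_filter]
  by_contra hcon
  rw [not_or, not_and, not_and] at hcon
  exact h t (hcon.1 ht.1) (hcon.2 ht.1) ht.2

open Classical in
/-- Let `b, q ≥ 2` be coprime (for instance different primes), `a ≥ 1`, let `M` be a pushdown
predictor over the alphabet `{0, …, b - 1}` with finitely many states and stack symbols, `K` a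
natural number and `ε, δ, η > 0`.  There is `T₀` such that for all `T ≥ T₀` and all `J`, for all but
at most `δ T` of the exponents `n = J + t`, `t < T`, the following holds for every window
`u, …, u + l - 1` of places of the base `b` expansion of `a q ^ n` (`u + l` at most the number of
digits) of length `l ≥ η (J + T)`, and for the digits at these places in increasing or in decreasing
order:
(1) the predictor, started in any state with the empty stack, is wrong at least `T ^ (1 - ε)` times
before it has read the `l` digits;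
(2) every lossless automaton with `K` states writes something in at least `T ^ (1 - ε)` of the `l`
steps in which it reads them. -/
theorem result (b q : ℕ) (hb : 2 ≤ b) (hq : 2 ≤ q) (hco : Nat.Coprime b q) (a : ℕ) (ha : 1 ≤ a)
    (Q Γ : Type) [Fintype Q] [Fintype Γ] (M : Predictor b Q Γ) (K : ℕ)
    (ε δ η : ℝ) (hε : 0 < ε) (hδ : 0 < δ) (hη : 0 < η) :
    ∃ T₀ : ℕ, ∀ T : ℕ, T₀ ≤ T → ∀ J : ℕ,
      (((Finset.range T).filter (fun t : ℕ => ¬ ∀ u l : ℕ,
        u + l ≤ (Nat.digits b (a * q ^ (J + t))).length → η * ((J : ℝ) + T) ≤ l →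
          ∀ d : ℕ → Fin b, Reads b (a * q ^ (J + t)) u l d →
            (∀ (q₀ : Q) (s : ℕ), l ≤ (M.conf q₀ d s).1 →
              (T : ℝ) ^ (1 - ε) ≤ M.wrong q₀ d s) ∧
            (∀ (β : Type) [DecidableEq β] (δ' : Fin K → Fin b → Fin K)
              (o : Fin K → Fin b → List β) (q₀ : Fin K), Lossless δ' o q₀ →
              (T : ℝ) ^ (1 - ε) ≤ writes δ' o q₀ d l))).card : ℝ) ≤ δ * T := by
  obtain ⟨P, C, hP, hpred⟩ := predictor_fail M
  obtain ⟨P', hP'def⟩ : ∃ P', P' = K.factorial := ⟨_, rfl⟩
  have hP' : 1 ≤ P' := by rw [hP'def]; exact Nat.one_le_iff_ne_zero.2 (Nat.factorial_ne_zero _)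
  obtain ⟨C', hC'def⟩ : ∃ C', C' = (P' + 1) * (K + 1) := ⟨_, rfl⟩
  set ε' : ℝ := min ε 1 with hε'
  have hε'0 : 0 < ε' := lt_min hε one_pos
  obtain ⟨T1, hT1⟩ := Pool.Agent.TH461.AL.Fin.pow_windows hb hq hco ha (P + 1)
    (ε := ε' / 2) (δ := δ / 2) (η := η) (by positivity) (by positivity) hη
  obtain ⟨T2, hT2⟩ := Pool.Agent.TH461.AL.Fin.pow_windows hb hq hco ha (P' + 1)
    (ε := ε' / 2) (δ := δ / 2) (η := η) (by positivity) (by positivity) hη
  have ht : Tendsto (fun T : ℕ => (T : ℝ) ^ (ε' / 2)) atTop atTop :=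
    (tendsto_rpow_atTop (by positivity)).comp tendsto_natCast_atTop_atTop
  obtain ⟨T3, hT3⟩ := (tendsto_atTop.1 ht (2 * (C : ℝ) + 2 * C')).exists_forall_of_atTop
  refine ⟨max (max T1 T2) (max T3 1), fun T hT J => ?_⟩
  have e1 : T1 ≤ T := (le_max_left _ _).trans ((le_max_left _ _).trans hT)
  have e2 : T2 ≤ T := (le_max_right _ _).trans ((le_max_left _ _).trans hT)
  have e3 : T3 ≤ T := (le_max_left _ _).trans ((le_max_right _ _).trans hT)
  have e4 : 1 ≤ T := (le_max_right _ _).trans ((le_max_right _ _).trans hT)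
  have hTR : (1 : ℝ) ≤ T := by exact_mod_cast e4
  have h3 := hT3 T e3
  have hC0 : (0 : ℝ) ≤ C := Nat.cast_nonneg _
  have hC'0 : (0 : ℝ) ≤ C' := Nat.cast_nonneg _
  have hpow : (T : ℝ) ^ (1 - ε) ≤ (T : ℝ) ^ (1 - ε') :=
    Real.rpow_le_rpow_of_exponent_le hTR (by have := min_le_left ε 1; linarith)
  have hb1 : 1 < b ^ (P + 1) := Nat.one_lt_pow (by omega) (by omega)
  have hb2 : 1 < b ^ (P' + 1) := Nat.one_lt_pow (by omega) (by omega)
  have hsum : δ * T = δ / 2 * T + δ / 2 * T := by ring
  rw [hsum]
  refine filt_add T _ _ _ ?_ (hT1 T e1 J) (hT2 T e2 J)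
  intro t hn1 hn2
  rw [not_not] at hn1 hn2 ⊢
  intro u l hul hl d hd
  constructor
  · intro q₀ s hs
    have h4 := hn1 u l hul hl 1 hb1
    refine hpow.trans (real_bound (C := C) hTR (min_le_right _ _) (by linarith) ?_
      (hpred q₀ d l s hs))
    exact h4.trans (Nat.cast_le.2 (word_fails' hb _ P u l hP d hd))
  · intro β _ δ' o q₀ hlos
    have h4 := hn2 u l hul hl 1 hb2
    have h5 := comp_fail δ' o q₀ hlos d l
    rw [← hP'def, ← hC'def] at h5
    refine hpow.trans (real_bound (C := C') hTR (min_le_right _ _) (by linarith) ?_ h5)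
    exact h4.trans (Nat.cast_le.2 (word_fails' hb _ P' u l hP' d hd))

end Pool.Agent.Results.MP_b08cb4_nt.PredictorsAndCompressors
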