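import Mathlib
import Pool.Agent.R485.ZO.All

/-!
# Words of small frequency in the digits of powers: a zero-one law

Let `b, c ≥ 2` be multiplicatively independent, for instance different primes.

1. For every length `k` and `δ > 0` there is `K` such that for all `ε, η > 0` and all large `L` the
following holds for all integers `m ≥ b ^ (L ^ 3)`. Either, for all but `δ L ^ 2` of the exponents
`j < L ^ 2`, every word of `k` digits has frequency at least `1 / L` among all the base `b` digits of
`m c ^ j`; or there is `j < L ^ 2` such that `m c ^ j` is almost periodic: all but a proportion `ε` of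
the quotients `m c ^ j / b ^ i`, one for each place `i`, are modulo one within `η` of a fraction with
denominator at most `K`.

2. For the sequence `u c ^ n` (`u ≥ 1`) the following are equivalent: (A) some word has, for a fixed
positive proportion `δ` of the exponents in arbitrarily long windows, arbitrarily small frequency;
(B) some word has arbitrarily small frequency for ALL exponents in arbitrarily long windows;
(C) for some `K` and all `ε, η > 0` infinitely many `u c ^ n` are almost periodic.

Proof: if a word is rare for many exponents, choose good windows by the rising sun lemma, and let `P`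
be a limit of the uniform measures on the points `m / b ^ i` of the circle; it is invariant under
multiplication by `b`. For almost every point `x` the orbits of `c ^ j x` under multiplication by `b`
avoid the interval of the word, for a set of `j` of positive lower density. By the uniform version of
Furstenberg's theorem `Pool.Agent.W765.Det.uniform_orbit` (starting files) such an orbit has a bounded
number of points for some `j`.
-/

set_option autoImplicit false

open Filter

namespace Pool.Agent.Results.MP_b08cb4_nt.RareWords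

/-- the number of digits of `m ≥ 1` in base `b` -/
def numDigits (b m : ℕ) : ℕ := Nat.log b m + 1

open Classical in
/-- the number of occurrences of the word with value `W` and `k` digits in base `b` (possibly with
zeros at the beginning) in the base `b` expansion of `m` -/
def occurrences (b k W m : ℕ) : ℕ :=
  ((Finset.range (numDigits b m + 1 - k)).filter (fun i => m / b ^ i % b ^ k = W)).card

/-- the frequency of a word in the base `b` expansion of `m` -/
noncomputable def freq (b k W m : ℕ) : ℝ := (occurrences b k W m : ℝ) / numDigits b m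

/-- `y` is modulo one near a fraction with denominator at most `K` -/
def NearFraction (K : ℕ) (η y : ℝ) : Prop := ∃ d : ℕ, 1 ≤ d ∧ d ≤ K ∧ ∃ z : ℤ, |(d : ℝ) * y - z| < η

/-- for all but a proportion `ε` of the places `i` of the base `b` expansion of `m`, the number
`m / b ^ i` is modulo one near a fraction with denominator at most `K` -/
def AlmostPeriodic (b K : ℕ) (ε η : ℝ) (m : ℕ) : Prop :=
  (1 - ε) * numDigits b m ≤
    ({i : ℕ | i < numDigits b m ∧ NearFraction K η ((m : ℝ) / (b : ℝ) ^ i)}.ncard : ℝ)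

open Pool.Agent.R485.ZO in
theorem ap_iff {b K : ℕ} {ε η : ℝ} {m : ℕ} : AlmostPeriodic b K ε η m ↔ AP b K ε η m := by
  classical
  unfold AlmostPeriodic AP
  have e : {i : ℕ | i < numDigits b m ∧ NearFraction K η ((m : ℝ) / (b : ℝ) ^ i)} =
      (((Finset.range (nd b m)).filter (fun i => Near K η ((m : ℝ) / (b : ℝ) ^ i)) : Finset ℕ) : Set ℕ) := by
    ext i
    simp [numDigits, nd, NearFraction, Near]
  rw [e, Set.ncard_coe_finset]
  rfl

open Pool.Agent.R485.ZO in
theorem occ_eq {b k W m : ℕ} : occurrences b k W m = occ b k W m := by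
  unfold occurrences occ
  congr

open Pool.Agent.R485.ZO in
theorem freq_lt {b k W m : ℕ} {κ : ℝ} : freq b k W m < κ ↔ (occ b k W m : ℝ) < κ * nd b m := by
  unfold freq
  have : (0 : ℝ) < (numDigits b m : ℝ) := by
    unfold numDigits
    exact_mod_cast Nat.succ_pos _
  rw [div_lt_iff₀ this, occ_eq]
  rfl

open Pool.Agent.R485.ZO in
theorem freq_lt' {b k W m L : ℕ} (hL : 1 ≤ L) :
    freq b k W m < 1 / L ↔ (L : ℝ) * occ b k W m < nd b m := by
  have hL0 : (0 : ℝ) < L := by exact_mod_cast hL
  rw [freq_lt, one_div, ← div_eq_inv_mul, lt_div_iff₀ hL0, mul_comm]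

theorem mulIndep {b c : ℕ} (hb : 2 ≤ b) (hc : 2 ≤ c)
    (hbc : ∀ x y : ℕ, 0 < x → 0 < y → b ^ x ≠ c ^ y) : Pool.Agent.H705R2.MulIndep b c := by
  intro m n h
  rcases Nat.eq_zero_or_pos m with hm | hm
  · subst hm
    rw [pow_zero] at h
    refine ⟨rfl, ?_⟩
    by_contra hn
    have := Nat.one_lt_pow hn (by omega : 1 < c)
    omega
  · rcases Nat.eq_zero_or_pos n with hn | hn
    · subst hn
      rw [pow_zero] at h
      have := Nat.one_lt_pow hm.ne' (by omega : 1 < b)
      omega
    · exact absurd h (hbc m n hm hn)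

theorem ncard_filter (M : ℕ) (Q : ℕ → Prop) [DecidablePred Q] :
    {j : ℕ | j < M ∧ Q j}.ncard = ((Finset.range M).filter Q).card := by
  rw [← Set.ncard_coe_finset]
  congr 1
  ext j
  simp

theorem pow_big {u c n t : ℕ} (hu : 1 ≤ u) (hc : 2 ≤ c) (h : t ≤ n) : t ≤ u * c ^ n := by
  have h1 : n < c ^ n := Nat.lt_pow_self (by omega)
  have h2 : c ^ n ≤ u * c ^ n := Nat.le_mul_of_pos_left _ hu
  omega

open Pool.Agent.R485.ZO in
theorem result (b c : ℕ) (hb : 2 ≤ b) (hc : 2 ≤ c)
    (hbc : ∀ x y : ℕ, 0 < x → 0 < y → b ^ x ≠ c ^ y) :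
    -- (1) the uniform dichotomy
    (∀ k : ℕ, ∀ δ : ℝ, 0 < δ → ∃ K : ℕ, ∀ ε : ℝ, 0 < ε → ∀ η : ℝ, 0 < η → ∃ L₀ : ℕ, ∀ L : ℕ,
      L₀ ≤ L → ∀ m : ℕ, b ^ (L ^ 3) ≤ m →
        ({j : ℕ | j < L ^ 2 ∧ ∃ W < b ^ k, freq b k W (m * c ^ j) < 1 / L}.ncard : ℝ) ≤
          δ * (L : ℝ) ^ 2 ∨
        ∃ j < L ^ 2, AlmostPeriodic b K ε η (m * c ^ j)) ∧
    -- (2) the zero-one law for the sequence `u c ^ n`
    (∀ u : ℕ, 1 ≤ u → List.TFAE [
      (∃ k W : ℕ, W < b ^ k ∧ ∃ δ : ℝ, 0 < δ ∧ ∀ κ : ℝ, 0 < κ → ∀ M : ℕ, 1 ≤ M →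
        ∃ᶠ n in atTop, δ * M < ({j : ℕ | j < M ∧ freq b k W (u * c ^ (n + j)) < κ}.ncard : ℝ)),
      (∃ k W : ℕ, W < b ^ k ∧ ∀ κ : ℝ, 0 < κ → ∀ M : ℕ, 1 ≤ M →
        ∃ᶠ n in atTop, ∀ j < M, freq b k W (u * c ^ (n + j)) < κ),
      (∃ K : ℕ, ∀ ε : ℝ, 0 < ε → ∀ η : ℝ, 0 < η →
        ∃ᶠ n in atTop, AlmostPeriodic b K ε η (u * c ^ n))]) := by
  classical
  have hind := mulIndep hb hc hbc
  constructor
  · intro k δ hδ
    obtain ⟨K, hK⟩ := core_all hb hc hind k hδ
    refine ⟨K, fun ε hε η hη => ?_⟩
    obtain ⟨L₀, hL₀⟩ := hK ε hε η hη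
    refine ⟨max L₀ 1, fun L hL m hm => ?_⟩
    have hL1 : 1 ≤ L := (le_max_right _ _).trans hL
    rcases hL₀ L ((le_max_left _ _).trans hL) m hm with h | ⟨j, hj, h⟩
    · left
      rw [ncard_filter]
      refine le_trans (le_of_eq ?_) h
      congr 2
      apply Finset.filter_congr
      intro j _
      constructor
      · rintro ⟨W, hW, h1⟩
        exact ⟨W, hW, (freq_lt' hL1).1 h1⟩
      · rintro ⟨W, hW, h1⟩
        exact ⟨W, hW, (freq_lt' hL1).2 h1⟩
    · exact Or.inr ⟨j, hj, ap_iff.2 h⟩
  · intro u hu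
    tfae_have 1 → 3 := by
      rintro ⟨k, W, hW, δ, hδ, hA⟩
      obtain ⟨K, hK⟩ := core hb hc hind hW hδ
      refine ⟨K, fun ε hε η hη => ?_⟩
      obtain ⟨L₀, hL₀⟩ := hK ε hε η hη
      set L := max L₀ 1 with hL
      have hL1 : 1 ≤ L := le_max_right _ _
      have hL0 : (0 : ℝ) < L := by exact_mod_cast hL1
      rw [frequently_atTop]
      intro N
      obtain ⟨n, hn, hn2⟩ := (frequently_atTop.1 (hA (1 / L) (by positivity) (L ^ 2)
        (Nat.one_le_pow _ _ hL1))) (max N (b ^ (L ^ 3)))
      rcases hL₀ L (le_max_left _ _) (u * c ^ n)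
        (pow_big hu hc ((le_max_right _ _).trans hn)) with h | ⟨j, hj, h⟩
      · exfalso
        rw [ncard_filter] at hn2
        push_cast at hn2
        refine absurd (lt_of_lt_of_le hn2 ?_) (lt_irrefl _)
        refine le_trans (le_of_eq ?_) h
        congr 2
        apply Finset.filter_congr
        intro j _
        rw [freq_lt' hL1, pow_add, mul_assoc]
      · refine ⟨n + j, ((le_max_left _ _).trans hn).trans (Nat.le_add_right _ _), ?_⟩
        rw [ap_iff, pow_add, ← mul_assoc]
        exact h
    tfae_have 3 → 2 := by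
      rintro ⟨K, hK⟩
      obtain ⟨k, W, hk, hW, hmiss⟩ := missing_word hb K
      refine ⟨k, W, hW, fun κ hκ M hM => ?_⟩
      have hb0 : (0 : ℝ) < b := by exact_mod_cast (by omega : 0 < b)
      have hc0 : (0 : ℝ) < c := by exact_mod_cast (by omega : 0 < c)
      set t := ⌈(1 + (M : ℝ) * nd b c) / (κ / 3)⌉₊ with ht
      rw [frequently_atTop]
      intro N
      obtain ⟨n, hn, hn2⟩ := (frequently_atTop.1 (hK (κ / 3) (by positivity)
        (1 / ((c : ℝ) ^ M * (b : ℝ) ^ k)) (by positivity))) (max N (b ^ t))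
      refine ⟨n, (le_max_left _ _).trans hn, fun j hj => ?_⟩
      rw [ap_iff] at hn2
      have hm1 : 1 ≤ u * c ^ n := pow_big hu hc (le_trans (Nat.one_le_pow _ _ (by omega))
        ((le_max_right _ _).trans hn))
      have hfew := few_occ hb hc hmiss (M := M) (ε := κ / 3)
        (η := 1 / ((c : ℝ) ^ M * (b : ℝ) ^ k)) (by positivity)
        (by field_simp; rfl) hm1 hn2 hj.le
      have hbig : (1 + (M : ℝ) * nd b c) / (κ / 3) ≤ nd b (u * c ^ n) := by
        refine (Nat.le_ceil _).trans ?_
        have h1 : b ^ t ≤ u * c ^ n := pow_big hu hc ((le_max_right _ _).trans hn)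
        have h2 := Nat.log_mono_right (b := b) h1
        rw [Nat.log_pow (by omega)] at h2
        have h3 : t ≤ nd b (u * c ^ n) := h2.trans (Nat.le_succ _)
        have h4 : (t : ℝ) ≤ nd b (u * c ^ n) := Nat.cast_le.2 h3
        exact h4
      rw [div_le_iff₀ (by positivity)] at hbig
      have hnd := (nd_mul_pow hb c (u * c ^ n) j (by omega) hm1).1
      have hnd' : (nd b (u * c ^ n) : ℝ) ≤ nd b (u * c ^ n * c ^ j) := by exact_mod_cast hnd
      have hnd0 : (0 : ℝ) < nd b (u * c ^ n) := by
        unfold nd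
        exact_mod_cast Nat.succ_pos _
      rw [freq_lt, pow_add, ← mul_assoc]
      have h3 : (occ b k W (u * c ^ n * c ^ j) : ℝ) < κ * nd b (u * c ^ n) := by nlinarith
      refine h3.trans_le ?_
      gcongr
    tfae_have 2 → 1 := by
      rintro ⟨k, W, hW, h⟩
      refine ⟨k, W, hW, 1 / 2, by norm_num, fun κ hκ M hM => ?_⟩
      refine (h κ hκ M hM).mono fun n hn => ?_
      rw [ncard_filter, Finset.filter_true_of_mem (fun j hj => hn j (Finset.mem_range.1 hj)),
        Finset.card_range]
      have : (1 : ℝ) ≤ M := by exact_mod_cast hM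
      linarith
    tfae_finish

end Pool.Agent.Results.MP_b08cb4_nt.RareWords
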