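import Pool.Agent.R501.MT8

/-!
# The digits in base `q` of sums of powers of `p`: multiples of `p ^ n` by rearrangements of given digits

Let `p, q ≥ 2` be coprime, for instance different primes. Let `m` be a random rearrangement of `k` given digits in
base `p`, not almost all equal; for instance, `m p ^ N` is the sum of `r` powers `p ^ n` with `n` in a random set of `r`
elements of `[N, N + k)`, where `η k ≤ r ≤ (1 - η) k`. These multipliers are a very thin set: they may be fewer than
`p ^ (ρ k)` for every `ρ > 0` given in advance. Nevertheless for almost all of them all words have the right frequencies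
in all windows of the base `q` digits of `m p ^ N + y` below `p ^ N`, for every `N ≤ A k`. So for the multipliers with
about `ε n` digits all digits have the frequency `1 / q` in the whole base `q` expansion of `m p ^ n`, up to an error
`2 ε`.

From the starting files: the Diophantine input `Pool.Agent.Y933.KE.powers_far` (which rests on the subspace theorem),
the comparison of measures `Pool.Agent.Y933.KD.Test`, the moments of word counts, and `Pool.Agent.Y933.KE.PowRes`; the
characteristic function of random rearrangements is in `Pool.Agent.TH872.An1` and `Pool.Agent.R459.Eq6`. New is the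
combination: `Pool.Agent.R501.MT6` to `MT8`.
-/

set_option autoImplicit false

namespace Pool.Agent.Results.MP_b08cb4_nt.RearrangedMultiples

open Finset

/-- the integer with the digits `d (σ 0), d (σ 1), …, d (σ (k - 1))` in base `p` (the units first) -/
def rearranged (p : ℕ) {k : ℕ} (d : Fin k → ℕ) (σ : Equiv.Perm (Fin k)) : ℕ := ∑ i : Fin k, d (σ i) * p ^ (i : ℕ)

lemma digits_lt {p : ℕ} (hp : 1 ≤ p) : ∀ (k : ℕ) (a : Fin k → ℕ), (∀ i, a i < p) → ∑ i : Fin k, a i * p ^ (i : ℕ) < p ^ k := by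
  intro k
  induction k with
  | zero => intro a _; simp
  | succ k ih =>
    intro a ha
    rw [Fin.sum_univ_castSucc]
    have h1 := ih (fun i => a i.castSucc) (fun i => ha _)
    have h2 := ha (Fin.last k)
    simp only [Fin.val_castSucc, Fin.val_last] at h1 ⊢
    calc ∑ i : Fin k, a i.castSucc * p ^ (i : ℕ) + a (Fin.last k) * p ^ k < p ^ k + a (Fin.last k) * p ^ k :=
          Nat.add_lt_add_right h1 _
      _ = (a (Fin.last k) + 1) * p ^ k := by ring
      _ ≤ p * p ^ k := Nat.mul_le_mul_right _ h2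
      _ = p ^ (k + 1) := by ring

open Classical in
/-- Let `p, q ≥ 2` be coprime.

(1) For all `w`, `A`, `ε > 0` and `η > 0`, for all large `k`, for all digits `d 0, …, d (k - 1) < p` none of which is
taken at more than `(1 - η) k` places, for all `N ≤ A k` and all `y`: for all the `k!` rearrangements `m` of the digits
(in base `p`) but at most `ε k!`, for every word `j` of `l ≤ w` digits in base `q` and all `i₀`, `L` with
`q ^ (i₀ + L + l) ≤ p ^ N`, the number of the `i < L` such that the digits of `m * p ^ N + y` in base `q` at the places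
`i₀ + i, …, i₀ + i + l - 1` form the word `j` differs from `L / q ^ l` by at most `ε k`.

(2) For all `ε > 0` and `η > 0`, for all large `n` and all `k` with `ε n / 2 ≤ k ≤ ε n`, for all digits
`d 0, …, d (k - 1) < p` none of which is taken at more than `(1 - η) k` places: for all the `k!` rearrangements `m` of
the digits (in base `p`) but at most `ε k!`, for every digit `b < q` the number of digits `b` in the base `q` expansion
of `m * p ^ n`, divided by `n log_q p`, differs from `1 / q` by at most `2 ε`. -/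
theorem result (p q : ℕ) (hp : 2 ≤ p) (hq : 2 ≤ q) (hpq : p.Coprime q) :
    (∀ (w : ℕ) (A ε η : ℝ), 0 < ε → 0 < η → ∃ k₀ : ℕ, ∀ k : ℕ, k₀ ≤ k → ∀ d : Fin k → ℕ, (∀ i, d i < p) →
      (∀ a, ((univ.filter fun i => d i = a).card : ℝ) ≤ (1 - η) * k) → ∀ N y : ℕ, (N : ℝ) ≤ A * k →
      ((univ.filter fun σ : Equiv.Perm (Fin k) => ¬ ∀ l j i₀ L : ℕ, 1 ≤ l → l ≤ w → j < q ^ l →
        q ^ (i₀ + L + l) ≤ p ^ N →
        |(((range L).filter (fun i => (rearranged p d σ * p ^ N + y) / q ^ (i₀ + i) % q ^ l = j)).card : ℝ) -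
          L / (q : ℝ) ^ l| ≤ ε * k).card : ℝ) ≤ ε * k.factorial) ∧
    (∀ ε η : ℝ, 0 < ε → 0 < η → ∃ n₀ : ℕ, ∀ n : ℕ, n₀ ≤ n → ∀ k : ℕ, ε * n / 2 ≤ k → (k : ℝ) ≤ ε * n →
      ∀ d : Fin k → ℕ, (∀ i, d i < p) → (∀ a, ((univ.filter fun i => d i = a).card : ℝ) ≤ (1 - η) * k) →
      ((univ.filter fun σ : Equiv.Perm (Fin k) => ∃ b < q, 2 * ε <
        |((Nat.digits q (rearranged p d σ * p ^ n)).count b : ℝ) / (n * Real.logb q p) - 1 / q|).card : ℝ) ≤
        ε * k.factorial) := by
  have hqR : (2 : ℝ) ≤ q := by exact_mod_cast hq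
  have hq0 : (0 : ℝ) < q := by linarith
  have hpR : (2 : ℝ) ≤ p := by exact_mod_cast hp
  have hp0 : (0 : ℝ) < p := by linarith
  have hlq : 0 < Real.log (q : ℝ) := Real.log_pos (by linarith)
  have hlp : 0 < Real.log (p : ℝ) := Real.log_pos (by linarith)
  -- the common statement
  have main : ∀ (w : ℕ) (A ε η : ℝ), 0 < ε → 0 < η → ∃ k₀ : ℕ, ∀ k : ℕ, k₀ ≤ k → ∀ d : Fin k → ℕ, (∀ i, d i < p) →
      (∀ a, ((univ.filter fun i => d i = a).card : ℝ) ≤ (1 - η) * k) → ∀ N J y : ℕ, (N : ℝ) ≤ A * k → q ^ J ≤ p ^ N →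
      ((univ.filter fun σ : Equiv.Perm (Fin k) =>
        ¬ Pool.Agent.R501.MT.GoodN q w (ε * k) J (rearranged p d σ * p ^ N + y)).card : ℝ) ≤ ε * k.factorial := by
    intro w A ε η hε hη
    obtain ⟨c, k₁, h⟩ := Pool.Agent.R501.MT.almost_pow hp hq hpq w (|A| + 1) (ε / 2) η (by positivity) (by positivity) hη
    obtain ⟨k₂, hk₂⟩ := exists_nat_ge (4 * (c : ℝ) / ε)
    refine ⟨k₁ + k₂, fun k hk d hd hd' N J y hN hJ => ?_⟩
    have hc : 4 * (c : ℝ) ≤ ε * k := by
      have h1 : 4 * (c : ℝ) / ε ≤ k := hk₂.trans (by exact_mod_cast (by omega : k₂ ≤ k))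
      rw [div_le_iff₀ hε] at h1
      linarith
    have h1 := (h k (by omega) N J ((y : ℝ) / (q : ℝ) ^ J) (hN.trans (by
      apply mul_le_mul_of_nonneg_right _ (Nat.cast_nonneg _)
      linarith [le_abs_self A])) hJ).1 d ⟨hd, fun a => by convert hd' a⟩
    rw [Pool.Agent.R459.Fams.count_eq] at h1
    have h2 : ε / 2 * (k.factorial : ℝ) ≤ ε * k.factorial := by
      apply mul_le_mul_of_nonneg_right (by linarith) (Nat.cast_nonneg _)
    refine le_trans ?_ (h1.trans h2)
    rw [Nat.cast_le]
    apply card_le_card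
    intro σ hσ
    rw [mem_filter] at hσ ⊢
    refine ⟨hσ.1, fun hcon => hσ.2 ?_⟩
    have e1 : ((0 + 1 * ((Pool.Agent.TH872.An.V p d σ : ℕ) : ℤ) : ℤ) : ℝ) = (rearranged p d σ : ℝ) := by
      unfold rearranged Pool.Agent.TH872.An.V
      push_cast
      ring
    beta_reduce at hcon
    rw [e1] at hcon
    have h3 := Pool.Agent.R501.MT.goodN_mul hq (by positivity) _ _ hcon
    intro l j i₀ L hl hlw hj hL
    refine (h3 l j i₀ L hl hlw hj hL).trans ?_
    linarith
  refine ⟨fun w A ε η hε hη => ?_, fun ε η hε hη => ?_⟩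
  · obtain ⟨k₀, h⟩ := main w A ε η hε hη
    refine ⟨k₀, fun k hk d hd hd' N y hN => ?_⟩
    have hJ1 : q ^ (Nat.log q (p ^ N)) ≤ p ^ N := Nat.pow_log_le_self q (by positivity)
    refine le_trans ?_ (h k hk d hd hd' N _ y hN hJ1)
    rw [Nat.cast_le]
    apply card_le_card
    intro σ hσ
    rw [mem_filter] at hσ ⊢
    refine ⟨hσ.1, fun hcon => hσ.2 fun l j i₀ L hl hlw hj hL => hcon l j i₀ L hl hlw hj ?_⟩
    have : i₀ + L + l ≤ Nat.log q (p ^ N) := Nat.le_log_of_pow_le (by omega) hL
    omega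
  · obtain ⟨ε', hε'⟩ : ∃ ε', ε' = min ε (Real.log p / (4 * Real.log q)) := ⟨_, rfl⟩
    have hε'0 : 0 < ε' := by rw [hε']; exact lt_min hε (by positivity)
    have hε'1 : ε' ≤ ε := by rw [hε']; exact min_le_left _ _
    have hε'2 : ε' ≤ Real.log p / (4 * Real.log q) := by rw [hε']; exact min_le_right _ _
    obtain ⟨k₀, h⟩ := main 1 (2 / ε) ε' η hε'0 hη
    obtain ⟨n₁, hn₁⟩ := Pool.Agent.Y933.KE.freq_of_low hp hq hε
    obtain ⟨n₂, hn₂⟩ := exists_nat_ge (2 * ((k₀ : ℝ) + 1) / ε)
    refine ⟨n₁ + n₂, fun n hn k hk1 hk2 d hd hd' => ?_⟩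
    have hn2 : 2 * ((k₀ : ℝ) + 1) / ε ≤ n := hn₂.trans (by exact_mod_cast (by omega : n₂ ≤ n))
    rw [div_le_iff₀ hε] at hn2
    have hkk : (k₀ : ℝ) + 1 ≤ k := by linarith
    have hkk' : k₀ + 1 ≤ k := by exact_mod_cast hkk
    have hk0 : (0 : ℝ) < k := by exact_mod_cast (by omega : 0 < k)
    have hN : (n : ℝ) ≤ 2 / ε * k := by
      rw [div_mul_eq_mul_div, le_div_iff₀ hε]
      linarith
    have hJ1 : q ^ (Nat.log q (p ^ n)) ≤ p ^ n := Nat.pow_log_le_self q (by positivity)
    have h2 : ε' * (k.factorial : ℝ) ≤ ε * k.factorial := mul_le_mul_of_nonneg_right hε'1 (Nat.cast_nonneg _)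
    refine le_trans ?_ ((h k (by omega) d hd hd' n _ 0 hN hJ1).trans h2)
    rw [Nat.cast_le]
    apply card_le_card
    intro σ hσ
    rw [mem_filter] at hσ ⊢
    refine ⟨hσ.1, fun hcon => ?_⟩
    obtain ⟨b, hb, hbad⟩ := hσ.2
    have hm1 : 1 ≤ rearranged p d σ := by
      by_contra hz
      have hz' : rearranged p d σ = 0 := by omega
      unfold rearranged at hz'
      rw [sum_eq_zero_iff] at hz'
      have h3 : ∀ i, d i = 0 := by
        intro i
        have h4 := hz' (σ.symm i) (mem_univ _)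
        rw [Equiv.apply_symm_apply] at h4
        rcases Nat.mul_eq_zero.1 h4 with h5 | h5
        · exact h5
        · exact absurd h5 (pow_ne_zero _ (by omega))
      have h4 := hd' 0
      rw [filter_true_of_mem (fun i _ => h3 i), card_univ, Fintype.card_fin] at h4
      nlinarith
    have hm2 : (rearranged p d σ : ℝ) ≤ (p : ℝ) ^ (ε * n) := by
      have h3 : rearranged p d σ < p ^ k := digits_lt (by omega) k (fun i => d (σ i)) (fun i => hd _)
      have h4 : (rearranged p d σ : ℝ) ≤ (p : ℝ) ^ k := by exact_mod_cast h3.le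
      refine h4.trans ?_
      rw [← Real.rpow_natCast]
      exact Real.rpow_le_rpow_of_exponent_le (by linarith) hk2
    refine absurd (hn₁ n (by omega) _ b hm1 hm2 ?_) (not_le.2 hbad)
    have h5 := hcon 1 b 0 (Nat.log q (p ^ n)) le_rfl le_rfl (by simpa using hb) (by omega)
    simp only [zero_add, add_zero, pow_one] at h5
    refine h5.trans ?_
    calc ε' * k ≤ Real.log p / (4 * Real.log q) * (ε * n) := mul_le_mul hε'2 hk2 hk0.le (by positivity)
      _ = 1 / (4 * Real.log q) * (ε * n * Real.log p) := by ring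

end Pool.Agent.Results.MP_b08cb4_nt.RearrangedMultiples
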